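import Pool.Agent.Q20.Cub.FbCGroup

set_option autoImplicit false

/-!
# Cubulating a rank-3 free-by-cyclic group

`G = F(a,b,c) ⋊ ℤ` with `a ↦ a`, `b ↦ ab`, `c ↦ bcb` acts geometrically on a CAT(0) cube complex.

CAT(0) cube complexes are encoded by their 1-skeleta, the median graphs (Chepoi, Gerasimov,
Roller), exactly as in the frozen statements S01749 and S02895 of this pool.

Idea.  Put `x = t`, `y = a⁻¹t`, `d = tc`.  Then `G = ⟨x,y,b,d | xy = yx, bx = yb,
(b⁻¹y)d = d(bx)⟩`.  The subgroup `H = ⟨x,y,b⟩` is the fundamental group of a square complex with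
two squares.  The combinatorial hull of the axis of `bx` is a convex strip of squares, and the
symmetry `x ↔ y, b ↔ b⁻¹` carries it to the hull of the axis of `b⁻¹y`.  Gluing the product of the
strip (mod translation) with an interval gives a compact three-dimensional cube complex with one
vertex, seven edges, eight squares, two cubes, flag link, and fundamental group `G`.
-/

namespace Pool.Agent.Results.MP_56a3d2_al.Cubulated

open FreeGroup

/-- The free group on `a = of 0`, `b = of 1`, `c = of 2`. -/
abbrev F3 : Type := FreeGroup (Fin 3)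

/-- The automorphism `a ↦ a`, `b ↦ ab`, `c ↦ bcb`. -/
def phi : MulAut F3 :=
  MonoidHom.toMulEquiv
    (FreeGroup.lift (![of 0, of 0 * of 1, of 1 * of 2 * of 1] : Fin 3 → F3))
    (FreeGroup.lift (![of 0, (of 0)⁻¹ * of 1, (of 1)⁻¹ * of 0 * of 2 * (of 1)⁻¹ * of 0] :
      Fin 3 → F3))
    (by
      ext i
      fin_cases i
      · simp
      · simp
      · simp
        group)
    (by
      ext i
      fin_cases i
      · simp
      · simp
      · simp
        group)

theorem phi_a : phi (of 0) = of 0 := by simp [phi]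
theorem phi_b : phi (of 1) = of 0 * of 1 := by simp [phi]
theorem phi_c : phi (of 2) = of 1 * of 2 * of 1 := by simp [phi]

/-- The mapping torus `G = F(a,b,c) ⋊ ℤ`, the generator of `ℤ` acting by `phi`. -/
abbrev G : Type := F3 ⋊[zpowersHom (MulAut F3) phi] Multiplicative ℤ

/-- `G` acts freely and transitively on the vertices of a locally finite median graph, i.e. of the
1-skeleton of a CAT(0) cube complex; in particular the action is proper and cocompact. -/
theorem result : ∃ (V : Type) (_ : MulAction G V) (Γ : SimpleGraph V),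
    Nonempty V ∧ Γ.Connected ∧
    (∀ v : V, (Γ.neighborSet v).Finite) ∧
    (∀ x y z : V, ∃! m : V,
        Γ.dist x m + Γ.dist m y = Γ.dist x y ∧
        Γ.dist y m + Γ.dist m z = Γ.dist y z ∧
        Γ.dist x m + Γ.dist m z = Γ.dist x z) ∧
    (∀ (g : G) (u v : V), Γ.Adj u v → Γ.Adj (g • u) (g • v)) ∧
    (∀ v : V, (MulAction.stabilizer G v : Set G).Finite) ∧
    (∃ S : Finset V, ∀ v : V, ∃ g : G, ∃ s ∈ S, g • s = v) ∧
    (∀ (g : G) (v : V), g • v = v → g = 1) ∧
    (∀ u v : V, ∃ g : G, g • u = v) := by
  obtain ⟨h1, h2, h3, h4⟩ :=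
    (Q20.Cub.FbC.data (φ := phi) phi_a phi_b phi_c).main
  refine ⟨G, inferInstance, _, ⟨1⟩, h1, h2, h3, h4, ?_, ⟨{1}, fun v => ⟨v, 1, by simp, by simp⟩⟩,
    ?_, fun u v => ⟨v * u⁻¹, by simp⟩⟩
  · intro v
    refine (Set.finite_singleton (1 : G)).subset ?_
    intro g hg
    have : g * v = v := hg
    simpa using this
  · intro g v h
    have : g * v = v := h
    simpa using this

end Pool.Agent.Results.MP_56a3d2_al.Cubulated
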